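import Mathlib

set_option autoImplicit false
open Complex Filter Topology Set Metric
open scoped Real

namespace Pool.Agent.H.MP_090684_an

lemma flip (F : ℝ → ℂ) (h : Function.Periodic F (2 * π)) :
    ∫ θ in (0:ℝ)..2 * π, F (-θ) = ∫ θ in (0:ℝ)..2 * π, F θ := by
  rw [intervalIntegral.integral_comp_neg, neg_zero]
  simpa using h.intervalIntegral_add_eq (-(2 * π)) 0

lemma inv_circ (F : ℂ → ℂ) (q : ℝ) (hq : 0 < q) :
    (∮ z in C(0, q⁻¹), (z⁻¹) ^ 2 * F z⁻¹) = ∮ s in C(0, q), F s := by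
  simp only [circleIntegral, deriv_circleMap, smul_eq_mul]
  rw [← flip (fun θ => circleMap 0 q θ * I * F (circleMap 0 q θ))
    ((periodic_circleMap 0 q).comp fun z => z * I * F z)]
  refine intervalIntegral.integral_congr fun θ _ => ?_
  have := circleMap_ne_center (c := 0) (inv_ne_zero hq.ne') (θ := θ)
  simp only [← show (circleMap 0 q⁻¹ θ)⁻¹ = circleMap 0 q (-θ) by simp [circleMap_zero_inv]]
  field_simp

lemma cauchyD (f : ℂ → ℂ) (q : ℝ) (hq : 0 < q) (hf : ContinuousOn f (sphere 0 q)) :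
    DifferentiableOn ℂ (fun w => (2 * π * I : ℂ)⁻¹ • ∮ z in C(0, q), (z - w)⁻¹ • f z) (ball 0 q) := by
  lift q to NNReal using hq.le
  have := (hasFPowerSeriesOn_cauchy_integral (hf.circleIntegrable hq.le) hq).differentiableOn
  rwa [Metric.eball_coe] at this

lemma lin2 {c : ℂ} {q : ℝ} (hq : 0 ≤ q) {F : ℂ → ℂ} (f g : ℂ → ℂ) (a b : ℂ)
    (hf : ContinuousOn f (sphere c q)) (hg : ContinuousOn g (sphere c q))
    (h : ∀ z ∈ sphere c q, F z = a * f z + b * g z) :
    (∮ z in C(c, q), F z) = a * (∮ z in C(c, q), f z) + b * ∮ z in C(c, q), g z := by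
  rw [← circleIntegral.integral_const_mul, ← circleIntegral.integral_const_mul,
    ← circleIntegral.integral_add (f := fun z => a * f z) (g := fun z => b * g z)
    ((continuousOn_const.mul hf).circleIntegrable hq)
    ((continuousOn_const.mul hg).circleIntegrable hq)]
  exact circleIntegral.integral_congr hq h

lemma hole (r : ℝ) (hr : 0 < r) (g : ℂ → ℂ)
    (hg : ∀ s : ℂ, r < ‖s‖ → ‖s‖ < 5 * r → DifferentiableAt ℂ g s) :
    ∃ Ψ h H : ℂ → ℂ, (∀ t ∈ ball (0:ℂ) (2 * r)⁻¹, HasDerivAt Ψ (h t) t) ∧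
      DifferentiableOn ℂ h (ball 0 (2 * r)⁻¹) ∧ DifferentiableOn ℂ H (ball 0 (3 * r)) ∧
      (∀ s : ℂ, 2 * r < ‖s‖ → ‖s‖ < 3 * r → g s = H s +
        ((2 * π * I : ℂ)⁻¹ • ∮ z in C(0, 2 * r), g z) * s⁻¹ + s⁻¹ ^ 2 * h s⁻¹) ∧
      ∀ η : ℝ, (∀ s : ℂ, ‖s‖ = 2 * r → ‖g s‖ ≤ η) →
        ∀ t : ℂ, ‖t‖ ≤ (4 * r)⁻¹ → ‖h t‖ ≤ 8 * r ^ 2 * η := by
  have gc : ∀ q, r < q → q < 5 * r → ContinuousOn g (sphere 0 q) := fun q a b s hs => by
    rw [mem_sphere_zero_iff_norm] at hs
    exact (hg s (hs ▸ a) (hs ▸ b)).continuousAt.continuousWithinAt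
  have r2 : 0 < 2 * r := by linarith
  set h : ℂ → ℂ := fun t => (2 * π * I : ℂ)⁻¹ • ∮ z in C(0, 2 * r), (z⁻¹ - t)⁻¹ * g z with hh
  have hd : DifferentiableOn ℂ h (ball 0 (2 * r)⁻¹) := by
    refine (cauchyD (fun z => z⁻¹ ^ 2 * g z⁻¹) _ (inv_pos.2 r2) fun z hz => ?_).congr fun t _ => ?_
    · rw [mem_sphere_zero_iff_norm] at hz
      have z0 : z ≠ 0 := by rintro rfl; exact (inv_pos.2 r2).ne (by simpa using hz)
      have n : ‖z⁻¹‖ = 2 * r := by rw [norm_inv, hz, inv_inv]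
      exact (((continuousAt_inv₀ z0).pow 2).mul ((hg _ (by linarith) (by linarith)).continuousAt.comp
        (continuousAt_inv₀ z0))).continuousWithinAt
    · simp only [hh, ← inv_circ _ _ r2, inv_inv, smul_eq_mul, mul_left_comm]
  obtain ⟨Ψ, hΨ⟩ := hd.isExactOn_ball
  refine ⟨Ψ, h, _, hΨ, hd, cauchyD g (3 * r) (by linarith) (gc _ (by linarith) (by linarith)),
    fun s a b => ?_, fun η hη t ht => ?_⟩
  · have U : {z : ℂ | r < ‖z‖ ∧ ‖z‖ < 5 * r} ∈ 𝓝 s :=
      ((isOpen_lt continuous_const continuous_norm).inter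
        (isOpen_lt continuous_norm continuous_const)).mem_nhds
        ⟨show r < ‖s‖ by linarith, show ‖s‖ < 5 * r by linarith⟩
    have D := (differentiableOn_dslope U).2 fun z hz => (hg z hz.1 hz.2).differentiableWithinAt
    have D' : ∀ z : ℂ, r < ‖z‖ → ‖z‖ < 5 * r → DifferentiableAt ℂ (dslope g s) z := fun z c d =>
      D.differentiableAt (((isOpen_lt continuous_const continuous_norm).inter
        (isOpen_lt continuous_norm continuous_const)).mem_nhds ⟨c, d⟩)
    have A := circleIntegral_eq_of_differentiable_on_annulus_off_countable (c := 0) r2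
      (show 2 * r ≤ 3 * r by linarith) countable_empty (f := dslope g s) (fun z hz => by
        simp only [Set.mem_sdiff, mem_closedBall_zero_iff, mem_ball_zero_iff, not_lt] at hz
        exact (D' z (by linarith) (by linarith)).continuousAt.continuousWithinAt) fun z hz => by
        simp only [Set.mem_sdiff, mem_closedBall_zero_iff, mem_ball_zero_iff, not_le] at hz
        exact D' z (by linarith) (by linarith)
    have ne : ∀ q, q ≠ ‖s‖ → ∀ z ∈ sphere (0:ℂ) q, z - s ≠ 0 := fun q hq z hz e =>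
      hq (by rw [← sub_eq_zero.1 e]; exact (mem_sphere_zero_iff_norm.1 hz).symm)
    have ci : ∀ q, q ≠ ‖s‖ → ContinuousOn (fun z => (z - s)⁻¹) (sphere (0:ℂ) q) := fun q hq =>
      (continuousOn_id.sub continuousOn_const).inv₀ (ne q hq)
    have B : ∀ q, r < q → q < 5 * r → q ≠ ‖s‖ → (∮ z in C(0, q), dslope g s z) =
        1 * (∮ z in C(0, q), (z - s)⁻¹ • g z) + -g s * ∮ z in C(0, q), (z - s)⁻¹ := fun q c d e => by
      refine lin2 (by linarith) _ _ _ _ ((ci q e).smul (gc q c d)) (ci q e) fun z hz => ?_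
      rw [dslope_of_ne _ (sub_ne_zero.1 (ne q e z hz)), slope_def_field]
      simp only [smul_eq_mul]; ring
    have Z : (∮ z in C(0, 2 * r), (z - s)⁻¹) = 0 := by
      have n : ∀ z ∈ closedBall (0:ℂ) (2 * r), z - s ≠ 0 := fun z hz e => by
        rw [sub_eq_zero.1 e, mem_closedBall_zero_iff] at hz; linarith
      exact circleIntegral_eq_zero_of_differentiable_on_off_countable r2.le countable_empty
        ((continuousOn_id.sub continuousOn_const).inv₀ n) fun z hz =>
        (differentiableAt_id.sub_const s).inv (n z (ball_subset_closedBall hz.1))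
    have s0 : s ≠ 0 := by rintro rfl; simp at a; linarith
    have z0 : ∀ z ∈ sphere (0:ℂ) (2 * r), z ≠ 0 := fun z hz => ne_of_mem_sphere hz r2.ne'
    have n2 : ∀ z ∈ sphere (0:ℂ) (2 * r), z⁻¹ - s⁻¹ ≠ 0 := fun z hz e =>
      ne _ a.ne z hz (sub_eq_zero.2 (inv_injective (sub_eq_zero.1 e)))
    have g2 := gc (2 * r) (by linarith) (by linarith)
    have E : (∮ z in C(0, 2 * r), (z - s)⁻¹ • g z) = -s⁻¹ * (∮ z in C(0, 2 * r), g z) +
        -s⁻¹ ^ 2 * ∮ z in C(0, 2 * r), (z⁻¹ - s⁻¹)⁻¹ * g z := by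
      refine lin2 r2.le _ _ _ _ g2 ((((continuousOn_id.inv₀ z0).sub continuousOn_const).inv₀
          n2).mul g2) fun z hz => ?_
      have e : z⁻¹ - s⁻¹ = -(z - s) / (z * s) := by have := z0 z hz; field_simp; ring
      have := ne _ a.ne z hz
      simp only [smul_eq_mul, e]; field_simp; ring
    rw [B _ (by linarith) (by linarith) b.ne', B _ (by linarith) (by linarith) a.ne, Z, E,
      circleIntegral.integral_sub_inv_of_mem_ball (mem_ball_zero_iff.2 b)] at A
    have p := two_pi_I_ne_zero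
    simp only [hh, smul_eq_mul] at A ⊢
    field_simp at A ⊢
    linear_combination -A
  · refine (circleIntegral.norm_two_pi_i_inv_smul_integral_le_of_norm_le_const r2.le
      (C := 4 * r * η) fun z hz => ?_).trans (le_of_eq (by ring))
    rw [mem_sphere_zero_iff_norm] at hz
    have n := norm_sub_norm_le z⁻¹ t
    rw [norm_inv, hz] at n
    have e : (2 * r)⁻¹ = 2 * (4 * r)⁻¹ := by field_simp; ring
    rw [norm_mul, norm_inv]
    exact mul_le_mul (inv_le_of_inv_le₀ (by linarith) (by linarith)) (hη z hz) (norm_nonneg _)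
      (by linarith)

def a : Fin 3 → ℂ := ![-1, 0, 1]

lemma a1 (j : Fin 3) : ‖a j‖ ≤ 1 := by fin_cases j <;> simp [a]

lemma a2 {i j : Fin 3} (h : i ≠ j) : 1 ≤ ‖a i - a j‖ := by
  fin_cases i <;> fin_cases j <;> simp [a] at h ⊢ <;> norm_num

lemma a3 {i j : Fin 3} (h : i ≠ j) (s : ℂ) : 1 - ‖s‖ ≤ ‖a i + s - a j‖ := by
  have := norm_sub_le (a i + s - a j) s
  rw [show a i + s - a j - s = a i - a j by ring] at this
  linarith [a2 h]

def V (r R : ℝ) : Set ℂ := {w | ‖w‖ < R ∧ ∀ j, r < ‖w - a j‖}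

lemma Vo (r R : ℝ) : IsOpen (V r R) := by
  have : IsOpen {w : ℂ | ∀ j, r < ‖w - a j‖} := by
    rw [Set.ofPred_forall]
    exact isOpen_iInter_of_finite fun j => isOpen_lt continuous_const (by fun_prop)
  exact (isOpen_lt continuous_norm continuous_const).inter this

lemma Va {r R : ℝ} (_ : r < 1 / 2) (hR : 2 ≤ R) (i : Fin 3) {s : ℂ} (h1 : r < ‖s‖) (h2 : ‖s‖ ≤ 1 / 2) :
    a i + s ∈ V r R := by
  refine ⟨by linarith [norm_add_le (a i) s, a1 i], fun j => ?_⟩
  by_cases h : i = j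
  · subst h; simpa using h1
  · linarith [a3 h s]

lemma Vb {r R : ℝ} {w : ℂ} (h1 : r + 1 < ‖w‖) (h2 : ‖w‖ < R) : w ∈ V r R :=
  ⟨h2, fun j => by linarith [norm_sub_norm_le w (a j), a1 j]⟩

lemma dec (r R : ℝ) (hr : 0 < r) (hr' : r ≤ 1 / 10) (hR : 6 ≤ R) (g : ℂ → ℂ)
    (hg : ∀ w ∈ V r R, DifferentiableAt ℂ g w) :
    ∃ φ : ℂ → ℂ, (∀ w ∈ V (2 * r) R, HasDerivAt φ (g w - ∑ j,
      ((2 * π * I : ℂ)⁻¹ • ∮ z in C(0, 2 * r), g (a j + z)) * (w - a j)⁻¹) w) ∧
      ∀ η : ℝ, (∀ w ∈ V r R, ‖g w‖ ≤ η) → ∀ w w' : ℂ, ‖w‖ ≤ R / 2 → ‖w'‖ ≤ R / 2 →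
        (∀ j, 4 * r ≤ ‖w - a j‖) → (∀ j, 4 * r ≤ ‖w' - a j‖) →
        ‖φ w - φ w'‖ ≤ 4 * η * ‖w - w'‖ := by
  classical
  choose Ψ h H h1 h2 h3 h4 h5 using fun j => hole r hr (fun z => g (a j + z)) fun s b c =>
    (hg _ (Va (by linarith) (by linarith) j b (by linarith))).comp s (differentiableAt_id.const_add _)
  set c : Fin 3 → ℂ := fun j => (2 * π * I : ℂ)⁻¹ • ∮ z in C(0, 2 * r), g (a j + z) with hc
  set k : Fin 3 → ℂ → ℂ := fun j w => c j * (w - a j)⁻¹ + (w - a j)⁻¹ ^ 2 * h j (w - a j)⁻¹ with hk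
  have r2 : 0 < 2 * r := by linarith
  have tb : ∀ j w, 2 * r < ‖w - a j‖ → w - a j ≠ 0 ∧ (w - a j)⁻¹ ∈ ball (0:ℂ) (2 * r)⁻¹ :=
    fun j w hw => ⟨norm_pos_iff.1 (r2.trans hw), by
      rw [mem_ball_zero_iff, norm_inv]; exact inv_strictAnti₀ r2 hw⟩
  have td : ∀ j w, 2 * r < ‖w - a j‖ → HasDerivAt (fun w => (w - a j)⁻¹) (-(w - a j)⁻¹ ^ 2) w :=
    fun j w hw => (((hasDerivAt_id w).sub_const _).fun_inv (tb j w hw).1).congr_deriv (by
      simp [div_eq_mul_inv])
  have kd : ∀ j w, 2 * r < ‖w - a j‖ → DifferentiableAt ℂ (k j) w := fun j w hw =>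
    ((td j w hw).differentiableAt.const_mul _).add (((td j w hw).differentiableAt.pow 2).mul
      (((h2 j).differentiableAt (isOpen_ball.mem_nhds (tb j w hw).2)).comp w
        (td j w hw).differentiableAt))
  set G : ℂ → ℂ := fun w => if e : ∃ j, ‖w - a j‖ < 3 * r then
    H e.choose (w - a e.choose) - ∑ i ∈ Finset.univ.erase e.choose, k i w else g w - ∑ i, k i w with hG
  have far : ∀ i j w, i ≠ j → ‖w - a i‖ < 3 * r → 3 * r < ‖w - a j‖ := fun i j w b e => by
    have := a3 b (w - a i)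
    rw [add_sub_cancel] at this; linarith
  have G1 : ∀ j w, ‖w - a j‖ < 3 * r →
      G w = H j (w - a j) - ∑ i ∈ Finset.univ.erase j, k i w := fun j w hw => by
    have e : ∃ j, ‖w - a j‖ < 3 * r := ⟨j, hw⟩
    have : e.choose = j := by
      by_contra n; linarith [far _ _ _ n e.choose_spec]
    simp only [hG, dif_pos e, this]
  have G2 : ∀ w ∈ V (2 * r) R, G w = g w - ∑ i, k i w := fun w hw => by
    by_cases e : ∃ j, ‖w - a j‖ < 3 * r
    · obtain ⟨j, e⟩ := e
      have := h4 j _ (hw.2 j) e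
      simp only [add_sub_cancel] at this
      rw [G1 j w e, ← Finset.add_sum_erase _ _ (Finset.mem_univ j), this]
      simp only [hk, hc]; ring
    · exact dif_neg e
  have VV : V (2 * r) R ⊆ V r R := fun w hw => ⟨hw.1, fun j => by linarith [hw.2 j]⟩
  have Gd : DifferentiableOn ℂ G (ball 0 R) := fun w hw => by
    refine DifferentiableAt.differentiableWithinAt ?_
    by_cases e : ∃ j, ‖w - a j‖ < 3 * r
    · obtain ⟨j, e⟩ := e
      refine DifferentiableAt.congr_of_eventuallyEq (f := fun w => H j (w - a j) -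
        ∑ i ∈ Finset.univ.erase j, k i w) ?_ ?_
      · exact (((h3 j).differentiableAt (isOpen_ball.mem_nhds (mem_ball_zero_iff.2 e))).comp w
          (differentiableAt_id.sub_const _)).sub (DifferentiableAt.fun_sum fun i hi =>
            kd i w (by linarith [far j i w (Finset.ne_of_mem_erase hi).symm e]))
      · filter_upwards [(isOpen_lt (f := fun w => ‖w - a j‖) (by fun_prop)
          continuous_const).mem_nhds e] with v hv using G1 j v hv
    · push Not at e
      have m : w ∈ V (2 * r) R := ⟨mem_ball_zero_iff.1 hw, fun j => by linarith [e j]⟩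
      refine DifferentiableAt.congr_of_eventuallyEq (f := fun w => g w - ∑ i, k i w)
        ((hg w (VV m)).sub (DifferentiableAt.fun_sum fun i _ => kd i w (m.2 i))) ?_
      filter_upwards [(Vo _ _).mem_nhds m] with v hv using G2 v hv
  obtain ⟨Φ, hΦ⟩ := Gd.isExactOn_ball
  refine ⟨fun w => Φ w - ∑ j, Ψ j (w - a j)⁻¹, fun w hw => ?_, fun η hη w w' b1 b2 b3 b4 => ?_⟩
  · refine ((hΦ w (mem_ball_zero_iff.2 hw.1)).fun_sub (HasDerivAt.fun_sum fun j _ =>
      (h1 j _ (tb j w (hw.2 j)).2).comp w (td j w (hw.2 j)))).congr_deriv ?_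
    rw [G2 w hw]
    simp only [hk, hc, Fin.sum_univ_three]; ring
  have g2 : ∀ j (s : ℂ), ‖s‖ = 2 * r → ‖g (a j + s)‖ ≤ η := fun j s hs =>
    hη _ (Va (by linarith) (by linarith) j (by linarith) (by linarith))
  have η0 : 0 ≤ η := (norm_nonneg _).trans (g2 0 (2 * r : ℝ) (by
    rw [norm_real, Real.norm_of_nonneg r2.le]))
  have cb : ∀ j, ‖c j‖ ≤ 2 * r * η := fun j =>
    circleIntegral.norm_two_pi_i_inv_smul_integral_le_of_norm_le_const r2.le fun z hz =>
      g2 j z (mem_sphere_zero_iff_norm.1 hz)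
  have sb : closedBall (0:ℂ) (R / 2) ⊆ ball 0 R := closedBall_subset_ball (by linarith)
  have cl : closure (ball (0:ℂ) (R / 2)) = closedBall 0 (R / 2) := closure_ball _ (by linarith)
  have Gb : ∀ z ∈ closedBall (0:ℂ) (R / 2), ‖G z‖ ≤ 2 * η := fun z hz => by
    refine norm_le_of_forall_mem_frontier_norm_le isBounded_ball
      (DifferentiableOn.diffContOnCl (cl ▸ Gd.mono sb)) (fun v hv => ?_) (cl ▸ hz)
    rw [frontier_ball _ (by linarith), mem_sphere_zero_iff_norm] at hv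
    have m : v ∈ V (2 * r) R := Vb (by linarith) (by linarith)
    have kb : ∀ j, ‖k j v‖ ≤ η / 3 := fun j => by
      have t : ‖(v - a j)⁻¹‖ ≤ 1 / 2 := by
        rw [norm_inv, one_div]
        exact inv_anti₀ two_pos (by linarith [norm_sub_norm_le v (a j), a1 j])
      have u := h5 j η (g2 j) _ (t.trans (by
        rw [one_div]; exact inv_anti₀ (by linarith) (by linarith)))
      refine (norm_add_le _ _).trans ?_
      rw [norm_mul, norm_mul, norm_pow]
      have e1 := mul_le_mul (cb j) t (norm_nonneg _) (by positivity)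
      have e2 := mul_le_mul (pow_le_pow_left₀ (norm_nonneg _) t 2) u (norm_nonneg _) (by positivity)
      nlinarith [mul_le_mul_of_nonneg_right hr' η0, mul_le_mul_of_nonneg_right
        (pow_le_pow_left₀ hr.le hr' 2) η0]
    rw [G2 v m]
    refine (norm_sub_le _ _).trans ?_
    have := norm_sum_le Finset.univ fun j => k j v
    rw [Fin.sum_univ_three (fun j => ‖k j v‖)] at this
    linarith [kb 0, kb 1, kb 2, hη v (VV m)]
  have L1 := (convex_closedBall (0:ℂ) (R / 2)).norm_image_sub_le_of_norm_hasDerivWithin_le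
    (fun z hz => (hΦ z (sb hz)).hasDerivWithinAt) Gb (mem_closedBall_zero_iff.2 b2)
    (mem_closedBall_zero_iff.2 b1)
  have L2 : ∀ j, ‖Ψ j (w - a j)⁻¹ - Ψ j (w' - a j)⁻¹‖ ≤ η / 2 * ‖w - w'‖ := fun j => by
    have r4 : 0 < 4 * r := by linarith
    have m : ∀ v, 4 * r ≤ ‖v - a j‖ → ‖(v - a j)⁻¹‖ ≤ (4 * r)⁻¹ := fun v hv => by
      rw [norm_inv]; exact inv_anti₀ r4 hv
    refine ((convex_closedBall (0:ℂ) (4 * r)⁻¹).norm_image_sub_le_of_norm_hasDerivWithin_le
      (fun z hz => (h1 j z (closedBall_subset_ball (inv_strictAnti₀ r2 (by linarith))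
        hz)).hasDerivWithinAt) (fun z hz => h5 j η (g2 j) z (mem_closedBall_zero_iff.1 hz))
      (mem_closedBall_zero_iff.2 (m _ (b4 j))) (mem_closedBall_zero_iff.2 (m _ (b3 j)))).trans ?_
    have n1 := (tb j w (by linarith [b3 j])).1
    have n2 := (tb j w' (by linarith [b4 j])).1
    rw [show (w - a j)⁻¹ - (w' - a j)⁻¹ = -((w - a j)⁻¹ * (w' - a j)⁻¹ * (w - w')) by
      field_simp; ring, norm_neg, norm_mul, norm_mul, ← mul_assoc]
    refine mul_le_mul_of_nonneg_right ((mul_le_mul_of_nonneg_left (mul_le_mul (m _ (b3 j))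
      (m _ (b4 j)) (norm_nonneg _) (by positivity)) (by positivity)).trans (le_of_eq ?_))
      (norm_nonneg _)
    field_simp; ring
  rw [show ∀ x y z t : ℂ, x - y - (z - t) = x - z - (y - t) from fun _ _ _ _ => by ring,
    ← Finset.sum_sub_distrib]
  refine (norm_sub_le _ _).trans ?_
  have := norm_sum_le Finset.univ fun j => Ψ j (w - a j)⁻¹ - Ψ j (w' - a j)⁻¹
  rw [Fin.sum_univ_three (fun j => ‖Ψ j (w - a j)⁻¹ - Ψ j (w' - a j)⁻¹‖)] at this
  nlinarith [L2 0, L2 1, L2 2, mul_nonneg η0 (norm_nonneg (w - w'))]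

lemma cauchy3 (r R : ℝ) (hr : 0 < r) (hr' : r ≤ 1 / 10) (hR : 6 ≤ R) (g : ℂ → ℂ)
    (hg : ∀ w : ℂ, ‖w‖ ≤ R → (∀ j, r ≤ ‖w - a j‖) → DifferentiableAt ℂ g w) :
    (∮ z in C(0, R), g z) = ∑ j, ∮ z in C(0, r), g (a j + z) := by
  obtain ⟨φ, h, -⟩ := dec r R hr hr' hR g fun w hw => hg w hw.1.le fun j => (hw.2 j).le
  have R2 : 0 < R / 2 := by linarith
  have f : ∀ w : ℂ, R / 2 ≤ ‖w‖ → ‖w‖ ≤ R → DifferentiableAt ℂ g w := fun w b c =>
    hg w c fun j => by linarith [norm_sub_norm_le w (a j), a1 j]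
  have f2 : ∀ j (s : ℂ), r ≤ ‖s‖ → ‖s‖ ≤ 2 * r → DifferentiableAt ℂ (fun z => g (a j + z)) s :=
    fun j s b c => (hg _ (by linarith [norm_add_le (a j) s, a1 j]) fun i => by
      by_cases e : j = i
      · subst e; simpa using b
      · linarith [a3 e s]).comp s (differentiableAt_id.const_add _)
  have an : ∀ (F : ℂ → ℂ) (p q : ℝ), 0 < p → p ≤ q →
      (∀ s : ℂ, p ≤ ‖s‖ → ‖s‖ ≤ q → DifferentiableAt ℂ F s) →
      (∮ z in C(0, q), F z) = ∮ z in C(0, p), F z := fun F p q b c d =>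
    circleIntegral_eq_of_differentiable_on_annulus_off_countable b c countable_empty (fun z hz => by
      simp only [Set.mem_sdiff, mem_closedBall_zero_iff, mem_ball_zero_iff, not_lt] at hz
      exact (d z hz.2 hz.1).continuousAt.continuousWithinAt) fun z hz => by
      simp only [Set.mem_sdiff, mem_closedBall_zero_iff, mem_ball_zero_iff, not_le] at hz
      exact d z hz.1.2.le hz.1.1.le
  rw [an g _ _ R2 (by linarith) f]
  simp only [fun j => (an _ _ _ hr (by linarith) (f2 j)).symm]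
  set c : Fin 3 → ℂ := fun j => (2 * π * I : ℂ)⁻¹ • ∮ z in C(0, 2 * r), g (a j + z) with hc
  have ab : ∀ j, a j ∈ ball (0:ℂ) (R / 2) := fun j => mem_ball_zero_iff.2 (by linarith [a1 j])
  have ci : ∀ j, ContinuousOn (fun w => c j * (w - a j)⁻¹) (sphere (0:ℂ) (R / 2)) := fun j =>
    continuousOn_const.mul ((continuousOn_id.sub continuousOn_const).inv₀ fun z hz e => by
      have := ab j
      rw [← show z = a j from sub_eq_zero.1 e] at this
      exact (mem_ball.1 this).ne hz)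
  have Z := circleIntegral.integral_eq_zero_of_hasDerivWithinAt (c := 0) R2.le fun z hz =>
    (h z (Vb (by rw [mem_sphere_zero_iff_norm.1 hz]; linarith)
      (by rw [mem_sphere_zero_iff_norm.1 hz]; linarith))).hasDerivWithinAt
  rw [lin2 R2.le g (fun w => ∑ j, c j * (w - a j)⁻¹) 1 (-1) (fun z hz => (f z
    (mem_sphere_zero_iff_norm.1 hz).ge (by rw [mem_sphere_zero_iff_norm.1 hz]; linarith
    )).continuousAt.continuousWithinAt) (continuousOn_finsetSum _ fun j _ => ci j)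
    (fun z _ => by ring), circleIntegral.integral_fun_sum fun j _ =>
      (ci j).circleIntegrable R2.le] at Z
  simp only [circleIntegral.integral_const_mul, circleIntegral.integral_sub_inv_of_mem_ball (ab _),
    hc, smul_eq_mul, mul_right_comm _ _ (2 * π * I : ℂ), inv_mul_cancel₀ two_pi_I_ne_zero,
    one_mul] at Z
  linear_combination Z

end Pool.Agent.H.MP_090684_an
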