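import Pool.Agent.H.MP_090684_an.A

set_option autoImplicit false
open Complex Filter Topology Set Metric
open scoped Real ComplexConjugate

namespace Pool.Agent.H.MP_090684_an

noncomputable def ρ : ℝ := 1 / 1000000
noncomputable def e : ℂ := (ρ : ℂ) ^ 2
noncomputable def β (p : ℝ × ℝ) : ℝ := -1 / 2 + Real.sin p.1 / 4
noncomputable def γ (p : ℝ × ℝ) : ℝ := 3 / 2 + Real.sin p.2 / 2
noncomputable def μ (p : ℝ × ℝ) : Fin 3 → ℝ := ![1, β p, 1]

lemma ρ0 : 0 < ρ := by norm_num [ρ]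
lemma ne' : ‖e‖ = ρ ^ 2 := by rw [e, norm_pow, norm_real, Real.norm_of_nonneg ρ0.le]
lemma γb (p : ℝ × ℝ) : 1 ≤ γ p ∧ γ p ≤ 2 := by
  unfold γ; constructor <;> linarith [Real.neg_one_le_sin p.2, Real.sin_le_one p.2]
lemma μb (p : ℝ × ℝ) (j : Fin 3) : 1 / 4 ≤ |μ p j| ∧ |μ p j| ≤ 1 := by
  have := Real.neg_one_le_sin p.1
  have := Real.sin_le_one p.1
  have : |β p| = -β p := abs_of_neg (by unfold β; linarith)
  fin_cases j <;> simp [μ, this] <;> norm_num [β] <;> constructor <;> linarith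
lemma μ0 (p : ℝ × ℝ) (j : Fin 3) : (μ p j : ℂ) ≠ 0 := by
  have := (μb p j).1
  exact ofReal_ne_zero.2 (abs_pos.1 (by linarith))
lemma γ0 (p : ℝ × ℝ) : (γ p : ℂ) ≠ 0 := ofReal_ne_zero.2 (by linarith [(γb p).1])
lemma μc (j : Fin 3) : Continuous fun p => (μ p j : ℂ) := by
  refine continuous_ofReal.comp ?_
  fin_cases j <;> simp [μ, β] <;> fun_prop
lemma γc : Continuous fun p => (γ p : ℂ) := by unfold γ; fun_prop
lemma μr (p : ℝ × ℝ) (j : Fin 3) : μ p j.rev = μ p j := by fin_cases j <;> rfl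
lemma ar (j : Fin 3) : a j.rev = -a j := by fin_cases j <;> simp [a]
lemma ac (j : Fin 3) : conj (a j) = a j := by fin_cases j <;> simp [a]
lemma ec : conj e = e := by simp [e]

noncomputable def P (j : Fin 3) (f : ℂ → ℂ) (w : ℂ) : ℂ := (w - a j)⁻¹ * f (e * (w - a j)⁻¹)
noncomputable def u (j : Fin 3) (w : ℂ) : ℂ := (1 - e * a j * w)⁻¹
noncomputable def Q (j : Fin 3) (f : ℂ → ℂ) (w : ℂ) : ℂ := u j w * f (e ^ 2 * w * u j w)

def D (f : ℂ → ℂ) (c : ℝ) : Prop :=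
  DifferentiableOn ℂ f (ball 0 (1 / 2)) ∧ ∀ s ∈ ball (0:ℂ) (1 / 2), ‖f s‖ ≤ c

lemma Pa {j : Fin 3} {w : ℂ} (h : ρ / 4 ≤ ‖w - a j‖) :
    w - a j ≠ 0 ∧ e * (w - a j)⁻¹ ∈ ball (0:ℂ) (1 / 2) := by
  have := ρ0
  refine ⟨norm_pos_iff.1 (by linarith), mem_ball_zero_iff.2 ?_⟩
  rw [norm_mul, norm_inv, ne', ← div_eq_mul_inv, div_lt_iff₀ (by linarith)]
  unfold ρ at *; linarith

lemma Pd {j : Fin 3} {w : ℂ} {f : ℂ → ℂ} {c δ : ℝ} (hf : D f c) (h0 : ρ / 4 ≤ δ)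
    (h : δ ≤ ‖w - a j‖) : DifferentiableAt ℂ (P j f) w ∧ ‖P j f w‖ ≤ δ⁻¹ * c := by
  obtain ⟨b, m⟩ := Pa (h0.trans h)
  have t : DifferentiableAt ℂ (fun w => (w - a j)⁻¹) w := (differentiableAt_id.sub_const _).inv b
  refine ⟨t.mul ((hf.1.differentiableAt (isOpen_ball.mem_nhds m)).comp w (t.const_mul e)), ?_⟩
  have : 0 < δ := by linarith [ρ0]
  rw [P, norm_mul, norm_inv]
  exact mul_le_mul (inv_anti₀ this h) (hf.2 _ m) (norm_nonneg _) (by positivity)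

lemma Qa (j : Fin 3) {w : ℂ} (h : ‖w‖ ≤ 2 / ρ) : 1 - e * a j * w ≠ 0 ∧ ‖u j w‖ ≤ 2 ∧
    ‖u j w - 1‖ ≤ 4 * ρ ∧ ‖e ^ 2 * w * u j w‖ ≤ ρ := by
  have b : ‖e * a j * w‖ ≤ 2 * ρ := by
    rw [norm_mul, norm_mul, ne']
    refine (mul_le_mul (mul_le_of_le_one_right (by positivity) (a1 j)) h (norm_nonneg _)
      (by positivity)).trans (by norm_num [ρ])
  have c := norm_sub_norm_le 1 (e * a j * w)
  rw [norm_one] at c
  have c' : 1 / 2 ≤ ‖1 - e * a j * w‖ := by unfold ρ at b; linarith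
  have n : 1 - e * a j * w ≠ 0 := norm_pos_iff.1 (by linarith)
  have d : ‖u j w‖ ≤ 2 := by rw [u, norm_inv]; exact inv_le_of_inv_le₀ two_pos (by linarith)
  refine ⟨n, d, ?_, ?_⟩
  · rw [show u j w - 1 = u j w * (e * a j * w) by unfold u; field_simp; ring, norm_mul]
    linarith [mul_le_mul d b (norm_nonneg _) two_pos.le]
  · rw [norm_mul, norm_mul, norm_pow, ne']
    exact (mul_le_mul (mul_le_mul_of_nonneg_left h (by positivity)) d (norm_nonneg _)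
      (by have := ρ0; positivity)).trans (by norm_num [ρ])

lemma Qm (j : Fin 3) {w : ℂ} (h : ‖w‖ ≤ 2 / ρ) : e ^ 2 * w * u j w ∈ ball (0:ℂ) (1 / 2) :=
  mem_ball_zero_iff.2 ((Qa j h).2.2.2.trans_lt (by norm_num [ρ]))

lemma b0 : (0:ℂ) ∈ ball (0:ℂ) (1 / 2) := mem_ball_self (by norm_num)

lemma Qd (j : Fin 3) {w : ℂ} {f : ℂ → ℂ} {c : ℝ} (hf : D f c) (h : ‖w‖ ≤ 2 / ρ) :
    DifferentiableAt ℂ (Q j f) w ∧ ‖Q j f w‖ ≤ 2 * c ∧ ‖Q j f w - f 0‖ ≤ 8 * ρ * c := by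
  obtain ⟨n, b, k, l⟩ := Qa j h
  have m := Qm j h
  have t : DifferentiableAt ℂ (u j) w := ((differentiableAt_id.const_mul _).const_sub 1).inv n
  have c0 : 0 ≤ c := (norm_nonneg _).trans (hf.2 0 b0)
  refine ⟨t.mul ((hf.1.differentiableAt (isOpen_ball.mem_nhds m)).comp w
    ((differentiableAt_id.const_mul _).mul t)), ?_, ?_⟩
  · rw [Q, norm_mul]; exact mul_le_mul b (hf.2 _ m) (norm_nonneg _) two_pos.le
  · have s := dist_le_div_mul_dist_of_mapsTo_ball hf.1 (R₂ := 2 * c) (fun z hz => by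
      rw [mem_closedBall_iff_norm]
      linarith [norm_sub_le (f z) (f 0), hf.2 z hz, hf.2 0 b0]) m
    rw [dist_eq_norm, dist_zero_right] at s
    rw [show Q j f w - f 0 = (u j w - 1) * f (e ^ 2 * w * u j w) + (f (e ^ 2 * w * u j w) - f 0) by
      unfold Q; ring]
    refine (norm_add_le _ _).trans ?_
    rw [norm_mul]
    nlinarith [mul_le_mul k (hf.2 _ m) (norm_nonneg _) (by have := ρ0; positivity),
      mul_le_mul_of_nonneg_left l c0]

abbrev X := (Fin 3 → ℂ → ℂ) × (Fin 3 → ℂ → ℂ)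

variable (p : ℝ × ℝ) (x : X)

noncomputable def r0 (w : ℂ) : ℂ := (γ p : ℂ)⁻¹ * ∑ j, μ p j * (Q j (x.1 j) w - x.1 j 0)
noncomputable def s0 (w : ℂ) : ℂ := γ p * e ^ 2 * ∑ j, (μ p j : ℂ)⁻¹ * Q j (x.2 j) w
noncomputable def rj (j : Fin 3) (w : ℂ) : ℂ := e * (μ p j : ℂ)⁻¹ * P j (x.2 j) w
noncomputable def sj (j : Fin 3) (w : ℂ) : ℂ := μ p j * P j (x.1 j) w
noncomputable def M : X :=
  (fun i s => r0 p x (a i + s) + ∑ j ∈ Finset.univ.erase i, rj p x j (a i + s),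
   fun i s => s0 p x (a i + s) + ∑ j ∈ Finset.univ.erase i, sj p x j (a i + s))

def Gd (c : ℝ) : Prop := ∀ j, D (x.1 j) c ∧ D (x.2 j) (16 * c)

lemma n3 {f : Fin 3 → ℂ} {c : ℝ} (h : ∀ j, ‖f j‖ ≤ c) : ‖∑ j, f j‖ ≤ 3 * c := by
  refine (norm_sum_le _ _).trans ?_
  rw [Fin.sum_univ_three]; linarith [h 0, h 1, h 2]

lemma n2 {f : Fin 3 → ℂ} {c : ℝ} (i : Fin 3) (h : ∀ j, j ≠ i → ‖f j‖ ≤ c) :
    ‖∑ j ∈ Finset.univ.erase i, f j‖ ≤ 2 * c := by
  refine (norm_sum_le _ _).trans ((Finset.sum_le_card_nsmul _ _ c fun j hj =>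
    h j (Finset.ne_of_mem_erase hj)).trans (le_of_eq ?_))
  simp

lemma nm {z w : ℂ} {c d : ℝ} (h : ‖z‖ ≤ c) (k : ‖w‖ ≤ d) : ‖z * w‖ ≤ c * d :=
  (norm_mul_le _ _).trans (mul_le_mul h k (norm_nonneg _) ((norm_nonneg _).trans h))

lemma nμ (j : Fin 3) : ‖(μ p j : ℂ)‖ ≤ 1 ∧ ‖(μ p j : ℂ)⁻¹‖ ≤ 4 := by
  rw [norm_inv, norm_real, Real.norm_eq_abs]
  exact ⟨(μb p j).2, inv_le_of_inv_le₀ four_pos (by linarith [(μb p j).1])⟩

lemma nγ : ‖(γ p : ℂ)‖ ≤ 2 ∧ ‖(γ p : ℂ)⁻¹‖ ≤ 1 := by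
  rw [norm_inv, norm_real, Real.norm_of_nonneg (by linarith [(γb p).1])]
  exact ⟨(γb p).2, inv_le_one_of_one_le₀ (γb p).1⟩

variable {x}

lemma od {c : ℝ} (hx : Gd x c) {w : ℂ} (h : ‖w‖ ≤ 2 / ρ) :
    (DifferentiableAt ℂ (r0 p x) w ∧ ‖r0 p x w‖ ≤ 24 * ρ * c) ∧
      DifferentiableAt ℂ (s0 p x) w ∧ ‖s0 p x w‖ ≤ ρ * c := by
  have c0 : 0 ≤ c := (norm_nonneg _).trans ((hx 0).1.2 0 b0)
  refine ⟨⟨(DifferentiableAt.fun_sum fun j _ => ((Qd j (hx j).1 h).1.sub_const _).const_mul _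
    ).const_mul _, ?_⟩, (DifferentiableAt.fun_sum fun j _ => (Qd j (hx j).2 h).1.const_mul _
    ).const_mul _, ?_⟩
  · exact (nm (nγ p).2 (n3 fun j => nm (nμ p j).1 (Qd j (hx j).1 h).2.2)).trans (le_of_eq (by ring))
  · refine (nm (nm (nγ p).1 (norm_pow e 2).le)
      (n3 fun j => nm (nμ p j).2 (Qd j (hx j).2 h).2.1)).trans ?_
    rw [ne']; unfold ρ; linarith

lemma hd {c δ : ℝ} (hx : Gd x c) {j : Fin 3} {w : ℂ} (h0 : ρ / 4 ≤ δ) (h : δ ≤ ‖w - a j‖) :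
    (DifferentiableAt ℂ (rj p x j) w ∧ ‖rj p x j w‖ ≤ 64 * ρ ^ 2 * δ⁻¹ * c) ∧
      DifferentiableAt ℂ (sj p x j) w ∧ ‖sj p x j w‖ ≤ δ⁻¹ * c :=
  ⟨⟨(Pd (hx j).2 h0 h).1.const_mul _, (nm (nm ne'.le (nμ p j).2) (Pd (hx j).2 h0 h).2).trans
    (le_of_eq (by ring))⟩, (Pd (hx j).1 h0 h).1.const_mul _,
    (nm (nμ p j).1 (Pd (hx j).1 h0 h).2).trans (le_of_eq (by ring))⟩

lemma pt (i : Fin 3) {s : ℂ} (hs : s ∈ ball (0:ℂ) (1 / 2)) :
    ‖a i + s‖ ≤ 2 / ρ ∧ ∀ j, j ≠ i → 1 / 2 ≤ ‖a i + s - a j‖ := by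
  rw [mem_ball_zero_iff] at hs
  exact ⟨by unfold ρ; linarith [norm_add_le (a i) s, a1 i], fun j h => by linarith [a3 h.symm s]⟩

lemma h4 : ρ / 4 ≤ 1 / 2 := by norm_num [ρ]

lemma MG {c : ℝ} (hx : Gd x c) (i : Fin 3) :
    D ((M p x).1 i) (25 * ρ * c) ∧ D ((M p x).2 i) (16 * (c / 2)) := by
  have c0 : 0 ≤ c := (norm_nonneg _).trans ((hx 0).1.2 0 b0)
  have t : ∀ s : ℂ, DifferentiableAt ℂ (fun s => a i + s) s := fun s =>
    differentiableAt_id.const_add _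
  refine ⟨⟨fun s hs => DifferentiableAt.differentiableWithinAt ?_, fun s hs => ?_⟩,
    fun s hs => DifferentiableAt.differentiableWithinAt ?_, fun s hs => ?_⟩
  · exact ((od p hx (pt i hs).1).1.1.comp s (t s)).add (DifferentiableAt.fun_sum fun j hj =>
      (hd p hx h4 ((pt i hs).2 j (Finset.ne_of_mem_erase hj))).1.1.comp s (t s))
  · refine (norm_add_le_of_le (od p hx (pt i hs).1).1.2
      (n2 i fun j hj => (hd p hx h4 ((pt i hs).2 j hj)).1.2)).trans ?_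
    unfold ρ; linarith
  · exact ((od p hx (pt i hs).1).2.1.comp s (t s)).add (DifferentiableAt.fun_sum fun j hj =>
      (hd p hx h4 ((pt i hs).2 j (Finset.ne_of_mem_erase hj))).2.1.comp s (t s))
  · refine (norm_add_le_of_le (od p hx (pt i hs).1).2.2
      (n2 i fun j hj => (hd p hx h4 ((pt i hs).2 j hj)).2.2)).trans ?_
    unfold ρ; linarith

def Cj (x : X) : Prop := ∀ j s, conj (x.1 j s) = x.1 j (conj s) ∧ conj (x.2 j s) = x.2 j (conj s)

def Sy (x : X) : Prop := ∀ j s, x.1 j.rev (-s) = x.1 j s ∧ x.2 j.rev (-s) = -x.2 j s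

lemma cj (hx : Cj x) (w : ℂ) : conj (r0 p x w) = r0 p x (conj w) ∧
    conj (s0 p x w) = s0 p x (conj w) ∧ ∀ j, conj (rj p x j w) = rj p x j (conj w) ∧
      conj (sj p x j w) = sj p x j (conj w) := by
  simp [r0, s0, rj, sj, P, Q, u, ac, ec, fun j s => (hx j s).1, fun j s => (hx j s).2]

lemma sy (hx : Sy x) (w : ℂ) : r0 p x (-w) = r0 p x w ∧ s0 p x (-w) = -s0 p x w ∧
    ∀ j : Fin 3, rj p x j.rev (-w) = rj p x j w ∧ sj p x j.rev (-w) = -sj p x j w := by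
  have t : ∀ j : Fin 3, (-w - a j.rev)⁻¹ = -(w - a j)⁻¹ := fun j => by
    rw [ar, ← inv_neg]; congr 1; ring
  have v : ∀ j : Fin 3, u j.rev (-w) = u j w := fun j => by simp [u, ar]
  have z : ∀ j : Fin 3, x.1 j.rev 0 = x.1 j 0 := fun j => by simpa using (hx j 0).1
  refine ⟨?_, ?_, fun j => ?_⟩
  · unfold r0; congr 1
    refine (Fintype.sum_equiv Fin.revPerm _ _ fun j => ?_).symm
    simp [Q, μr, v, z, (hx j _).1]
  · unfold s0; rw [← mul_neg, ← Finset.sum_neg_distrib]; congr 1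
    refine (Fintype.sum_equiv Fin.revPerm _ _ fun j => ?_).symm
    simp [Q, μr, v, (hx j _).2]
  · simp [rj, sj, P, μr, t, (hx j _).1, (hx j _).2]

lemma er (f : Fin 3 → ℂ) (i : Fin 3) :
    ∑ j ∈ Finset.univ.erase i.rev, f j = ∑ j ∈ Finset.univ.erase i, f j.rev := by
  rw [Finset.sum_erase_eq_sub (Finset.mem_univ _), Finset.sum_erase_eq_sub (Finset.mem_univ _),
    ← Equiv.sum_comp Fin.revPerm]; rfl

noncomputable def d (p : ℝ × ℝ) : ℕ → X
  | 0 => (1, 0)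
  | n + 1 => M p (d p n)

lemma dG (n : ℕ) : Gd (d p n) ((1 / 2) ^ n) := by
  induction n with
  | zero => exact fun j => ⟨⟨differentiableOn_const 1, fun _ _ => by simp [d]⟩,
      differentiableOn_const 0, fun _ _ => by simp [d]⟩
  | succ n ih =>
    have : (0:ℝ) < (1 / 2) ^ n := by positivity
    refine fun j => ⟨⟨(MG p ih j).1.1, fun s hs => ((MG p ih j).1.2 s hs).trans ?_⟩,
      (MG p ih j).2.1, fun s hs => ((MG p ih j).2.2 s hs).trans ?_⟩ <;> rw [pow_succ]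
    · unfold ρ; linarith
    · linarith

lemma dC (n : ℕ) : Cj (d p n) := by
  induction n with
  | zero => intro j s; simp [d]
  | succ n ih =>
    intro j s
    simp [d, M, ac, (cj p ih _).1, (cj p ih _).2.1, ((cj p ih _).2.2 _).1, ((cj p ih _).2.2 _).2,
      -Finset.sum_erase_eq_sub]

lemma dS (n : ℕ) : Sy (d p n) := by
  induction n with
  | zero => intro j s; simp [d]
  | succ n ih =>
    intro j s
    simp only [d, M, ar, ← neg_add, er, (sy p ih _).1, (sy p ih _).2.1, ((sy p ih _).2.2 _).1,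
      ((sy p ih _).2.2 _).2, Finset.sum_neg_distrib, and_self]

lemma ct {y : ℝ × ℝ → X} {S : Set ℂ} (hy : ∀ j, ∀ s ∈ S, Continuous (fun p => (y p).1 j s) ∧
      Continuous fun p => (y p).2 j s) (w : ℂ) :
    (0 ∈ S → (∀ j, e ^ 2 * w * u j w ∈ S) → Continuous (fun p => r0 p (y p) w) ∧
      Continuous fun p => s0 p (y p) w) ∧ ∀ j, e * (w - a j)⁻¹ ∈ S →
      Continuous (fun p => rj p (y p) j w) ∧ Continuous fun p => sj p (y p) j w :=
  ⟨fun h k => ⟨(γc.inv₀ γ0).mul (continuous_finsetSum _ fun j _ => (μc j).mul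
    ((continuous_const.mul (hy j _ (k j)).1).sub (hy j _ h).1)), (γc.mul continuous_const).mul
    (continuous_finsetSum _ fun j _ => ((μc j).inv₀ (μ0 · j)).mul
    (continuous_const.mul (hy j _ (k j)).2))⟩, fun j h => ⟨(continuous_const.mul
    ((μc j).inv₀ (μ0 · j))).mul (continuous_const.mul (hy j _ h).2),
    (μc j).mul (continuous_const.mul (hy j _ h).1)⟩⟩

lemma dT (n : ℕ) : ∀ j, ∀ s ∈ (univ : Set ℂ), Continuous (fun p => (d p n).1 j s) ∧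
    Continuous fun p => (d p n).2 j s := by
  induction n with
  | zero => exact fun j s _ => ⟨continuous_const, continuous_const⟩
  | succ n ih =>
    intro j s _
    have := ct ih (a j + s)
    exact ⟨(this.1 trivial fun _ => trivial).1.add (continuous_finsetSum _ fun i _ =>
      (this.2 i trivial).1), (this.1 trivial fun _ => trivial).2.add
      (continuous_finsetSum _ fun i _ => (this.2 i trivial).2)⟩

noncomputable def y : X := (fun j s => ∑' n, (d p n).1 j s, fun j s => ∑' n, (d p n).2 j s)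

lemma sg : HasSum (fun n => (1 / 2 : ℝ) ^ n) 2 := hasSum_geometric_two

lemma yG : Gd (y p) 2 := fun j =>
  ⟨⟨differentiableOn_tsum_of_summable_norm sg.summable (fun n => (dG p n j).1.1) isOpen_ball
    fun n s hs => (dG p n j).1.2 s hs, fun s hs => tsum_of_norm_bounded sg
    fun n => (dG p n j).1.2 s hs⟩,
  differentiableOn_tsum_of_summable_norm (sg.mul_left 16).summable (fun n => (dG p n j).2.1)
    isOpen_ball fun n s hs => (dG p n j).2.2 s hs, fun s hs => tsum_of_norm_bounded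
    (sg.mul_left 16) fun n => (dG p n j).2.2 s hs⟩

lemma yC : Cj (y p) := fun j s => by simp [y, conj_tsum, (dC p _ j s).1, (dC p _ j s).2]

lemma yS : Sy (y p) := fun j s => by simp [y, (dS p _ j s).1, (dS p _ j s).2, tsum_neg]

lemma yT (j : Fin 3) (s : ℂ) (hs : s ∈ ball (0:ℂ) (1 / 2)) : Continuous (fun p => (y p).1 j s) ∧
    Continuous fun p => (y p).2 j s :=
  ⟨continuous_tsum (fun n => (dT n j s trivial).1) sg.summable fun n p => (dG p n j).1.2 s hs,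
    continuous_tsum (fun n => (dT n j s trivial).2) (sg.mul_left 16).summable
      fun n p => (dG p n j).2.2 s hs⟩

lemma yH (j : Fin 3) {s : ℂ} (hs : s ∈ ball (0:ℂ) (1 / 2)) :
    HasSum (fun n => (d p n).1 j s) ((y p).1 j s) ∧ HasSum (fun n => (d p n).2 j s) ((y p).2 j s) :=
  ⟨(sg.summable.of_norm_bounded fun n => (dG p n j).1.2 s hs).hasSum,
    ((sg.mul_left 16).summable.of_norm_bounded fun n => (dG p n j).2.2 s hs).hasSum⟩

lemma yF (i : Fin 3) {s : ℂ} (hs : s ∈ ball (0:ℂ) (1 / 2)) :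
    (y p).1 i s = 1 + (M p (y p)).1 i s ∧ (y p).2 i s = (M p (y p)).2 i s := by
  have m := fun j (hj : j ∈ Finset.univ.erase i) =>
    (Pa (h4.trans ((pt i hs).2 j (Finset.ne_of_mem_erase hj)))).2
  have k := fun j => Qm j (pt i hs).1
  have h1 : HasSum (fun n => (d p (n + 1)).1 i s) ((M p (y p)).1 i s) :=
    ((hasSum_sum fun j _ => (((yH p j (k j)).1.mul_left _).sub (yH p j b0).1).mul_left _).mul_left
      _).add (hasSum_sum fun j hj => ((yH p j (m j hj)).2.mul_left _).mul_left _)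
  have h2 : HasSum (fun n => (d p (n + 1)).2 i s) ((M p (y p)).2 i s) :=
    ((hasSum_sum fun j _ => ((yH p j (k j)).2.mul_left _).mul_left _).mul_left
      _).add (hasSum_sum fun j hj => ((yH p j (m j hj)).1.mul_left _).mul_left _)
  exact ⟨(yH p i hs).1.unique h1.zero_add,
    ((yH p i hs).2.unique h2.zero_add).trans (zero_add _)⟩

end Pool.Agent.H.MP_090684_an
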