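import Pool.Agent.H.MP_090684_an.B
import Pool.Agent.H.MP_1501ba_gt.A

set_option autoImplicit false
open Complex Filter Topology Set Metric
open scoped Real ComplexConjugate

namespace Pool.Agent.H.MP_090684_an

lemma cI_neg (F : ℂ → ℂ) (q : ℝ) : (∮ z in C(0, q), F (-z)) = -∮ z in C(0, q), F z := by
  have h := ((periodic_circleMap 0 q).comp fun z => z * I * F z).intervalIntegral_add_eq π 0
  have k := intervalIntegral.integral_comp_add_right (a := 0) (b := 2 * π)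
    ((fun z => z * I * F z) ∘ circleMap 0 q) π
  rw [zero_add, add_comm (2 * π), h, zero_add] at k
  simp only [circleIntegral, deriv_circleMap, smul_eq_mul]
  refine neg_eq_iff_eq_neg.1 (Eq.trans ?_ k)
  rw [← intervalIntegral.integral_neg]
  refine intervalIntegral.integral_congr fun θ _ => ?_
  simp [circleMap, add_mul, exp_add]

lemma cI_conj (F : ℂ → ℂ) (q : ℝ) (h : ∀ z, conj (F z) = F (conj z)) :
    conj (∮ z in C(0, q), F z) = -∮ z in C(0, q), F z := by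
  simp only [circleIntegral, deriv_circleMap, smul_eq_mul]
  conv_rhs => rw [← flip (fun θ => circleMap 0 q θ * I * F (circleMap 0 q θ))
    ((periodic_circleMap 0 q).comp fun z => z * I * F z)]
  rw [← intervalIntegral.integral_neg, intervalIntegral.integral_of_le Real.two_pi_pos.le,
    intervalIntegral.integral_of_le Real.two_pi_pos.le, ← integral_conj]
  congr 1; ext θ
  have : conj (circleMap 0 q θ) = circleMap 0 q (-θ) := by simp [circleMap, ← exp_conj]
  simp [h, this]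

variable (p : ℝ × ℝ)

noncomputable def R (w : ℂ) : ℂ := 1 + r0 p (y p) w + ∑ j, rj p (y p) j w
noncomputable def S (w : ℂ) : ℂ := s0 p (y p) w + ∑ j, sj p (y p) j w

lemma Rd {w : ℂ} (h : ‖w‖ ≤ 2 / ρ) (k : ∀ j, ρ / 4 ≤ ‖w - a j‖) : DifferentiableAt ℂ (R p) w ∧
    DifferentiableAt ℂ (S p) w ∧ ‖R p w - 1‖ ≤ 1 / 500 := by
  refine ⟨((od p (yG p) h).1.1.const_add 1).add (DifferentiableAt.fun_sum fun j _ =>
    (hd p (yG p) le_rfl (k j)).1.1), (od p (yG p) h).2.1.add (DifferentiableAt.fun_sum fun j _ =>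
    (hd p (yG p) le_rfl (k j)).2.1), ?_⟩
  rw [R, add_assoc, add_sub_cancel_left]
  exact (norm_add_le_of_le (od p (yG p) h).1.2 (n3 fun j =>
    (hd p (yG p) le_rfl (k j)).1.2)).trans (by norm_num [ρ])

lemma Ra (i : Fin 3) {s : ℂ} (hs : s ∈ ball (0:ℂ) (1 / 2)) :
    R p (a i + s) = (y p).1 i s + e * (μ p i : ℂ)⁻¹ * (s⁻¹ * (y p).2 i (e * s⁻¹)) ∧
    S p (a i + s) = (y p).2 i s + μ p i * (s⁻¹ * (y p).1 i (e * s⁻¹)) := by
  rw [(yF p i hs).1, (yF p i hs).2, R, S, ← Finset.add_sum_erase _ _ (Finset.mem_univ i),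
    ← Finset.add_sum_erase _ _ (Finset.mem_univ i)]
  simp only [M, rj, sj, P, add_sub_cancel_left]
  constructor <;> ring

lemma Rc (w : ℂ) : conj (R p w) = R p (conj w) := by
  simp [R, (cj p (yC p) _).1, ((cj p (yC p) _).2.2 _).1]

lemma Rn (w : ℂ) : R p (-w) = R p w := by
  rw [R, R, (sy p (yS p) w).1, ← Equiv.sum_comp Fin.revPerm]
  simp [((sy p (yS p) w).2.2 _).1]

lemma e0 : e ≠ 0 := norm_pos_iff.1 (by rw [ne']; exact pow_pos ρ0 2)

lemma bd1 (i : Fin 3) {s : ℂ} (hs : ‖s‖ = ρ) :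
    S p (a i + s) * s = μ p i * conj (R p (a i + s)) := by
  have s0 : s ≠ 0 := norm_pos_iff.1 (hs ▸ ρ0)
  have c : conj s = e * s⁻¹ := by
    rw [e, ← hs, ← mul_conj']; field_simp
  have b : s ∈ ball (0:ℂ) (1 / 2) := by rw [mem_ball_zero_iff, hs]; norm_num [ρ]
  have b' : conj s ∈ ball (0:ℂ) (1 / 2) := by simpa using b
  have := e0
  have := μ0 p i
  rw [Rc, map_add, ac, (Ra p i b).2, (Ra p i b').1, c, show e * (e * s⁻¹)⁻¹ = s by field_simp]
  field_simp; ring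

lemma bd2 (h : ∑ j, (μ p j : ℂ) * (y p).1 j 0 = γ p) {w : ℂ} (hw : ‖w‖ = ρ⁻¹) :
    S p w * w = γ p * conj (R p w) := by
  have r := ρ0
  have w0 : w ≠ 0 := norm_pos_iff.1 (by rw [hw]; positivity)
  have := e0
  have c : conj w = (e * w)⁻¹ := by
    have := mul_conj' w
    rw [hw, ofReal_inv, inv_pow, ← e] at this
    field_simp at this ⊢; linear_combination this
  have n : ∀ j, w - a j ≠ 0 := fun j => (Pa (j := j) (w := w) (by
    have := norm_sub_norm_le w (a j)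
    rw [hw] at this; norm_num [ρ] at this ⊢; linarith [a1 j])).1
  have t : ∀ j, ((e * w)⁻¹ - a j)⁻¹ = e * w * u j w := fun j => by
    rw [u, ← inv_inv (e * w), ← mul_inv, inv_inv]; congr 1; field_simp
  have v : ∀ j, u j (e * w)⁻¹ = w * (w - a j)⁻¹ := fun j => by
    rw [u, ← inv_inv w, ← mul_inv, inv_inv]; congr 1; field_simp
  have z : ∀ j, e ^ 2 * (e * w)⁻¹ * (w * (w - a j)⁻¹) = e * (w - a j)⁻¹ := fun j => by field_simp
  have z2 : ∀ j, e * (e * w * u j w) = e ^ 2 * w * u j w := fun j => by ring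
  have := γ0 p
  rw [Rc, c]
  simp only [R, S, r0, s0, rj, sj, P, Q, t, v, z, z2, Fin.sum_univ_three] at h ⊢
  rw [show ∀ x z : ℂ, γ p * (1 + (γ p : ℂ)⁻¹ * x + z) = γ p + x + γ p * z from fun x z => by
    field_simp]
  linear_combination h

noncomputable def per (j : Fin 3) : ℂ :=
  (2 * π * I : ℂ)⁻¹ • ∮ z in C(0, 2 * (ρ / 4)), (R p (a j + z) ^ 2 - 1)

lemma pr (j : Fin 3) : per p j.rev = -per p j := by
  rw [per, per, ← smul_neg, ← cI_neg]
  congr 2; ext z; rw [ar, ← Rn]; congr 3; ring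

lemma pc (j : Fin 3) : conj (per p j) = per p j := by
  rw [per, smul_eq_mul, map_mul, cI_conj _ _ fun z => by simp [Rc, ac]]
  simp [map_ofNat]

lemma sp (j : Fin 3) {z : ℂ} (hz : z ∈ sphere (0:ℂ) (2 * (ρ / 4))) :
    ‖a j + z‖ ≤ 2 / ρ ∧ ∀ i, ρ / 4 ≤ ‖a j + z - a i‖ := by
  rw [mem_sphere_zero_iff_norm] at hz
  have := Va (r := ρ / 4) (R := 2 / ρ) (by norm_num [ρ]) (by norm_num [ρ]) j (s := z)
    (by rw [hz]; norm_num [ρ]) (by rw [hz]; norm_num [ρ])
  exact ⟨this.1.le, fun i => (this.2 i).le⟩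

lemma q0 : 0 ≤ 2 * (ρ / 4) := by norm_num [ρ]

lemma pT (j : Fin 3) : Continuous fun p => per p j := by
  simp only [per, circleIntegral]
  refine Continuous.fun_const_smul ?_ _
  refine (intervalIntegral.continuous_of_dominated_interval (bound := fun _ => 4) (fun p => ?_)
    (fun p => Eventually.of_forall fun θ _ => ?_) intervalIntegrable_const
    (Eventually.of_forall fun θ _ => ?_))
  · simp only [deriv_circleMap]
    refine Continuous.aestronglyMeasurable (Continuous.fun_smul (by fun_prop)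
      (continuous_iff_continuousAt.2 fun θ => ?_))
    have := sp j (circleMap_mem_sphere 0 q0 θ)
    exact ((ContinuousAt.comp (f := fun θ => a j + circleMap 0 (2 * (ρ / 4)) θ)
      (Rd p this.1 this.2).1.continuousAt (by fun_prop)).pow 2).sub continuousAt_const
  · have := sp j (circleMap_mem_sphere 0 q0 θ)
    have b := (Rd p this.1 this.2).2.2
    rw [show ∀ x : ℂ, x ^ 2 - 1 = (x - 1) * ((x - 1) + 2) from fun x => by ring, smul_eq_mul]
    refine (nm (c := 1) ?_ (nm b (norm_add_le_of_le b Complex.norm_two.le))).trans (by norm_num)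
    simp only [deriv_circleMap, norm_mul, norm_circleMap_zero, norm_I, abs_of_nonneg q0]
    norm_num [ρ]
  · have := sp j (circleMap_mem_sphere 0 q0 θ)
    have c := ct yT (a j + circleMap 0 (2 * (ρ / 4)) θ)
    refine Continuous.fun_const_smul ?_ _
    exact (((continuous_const.add (c.1 b0 fun i => Qm i this.1).1).add (continuous_finsetSum _
      fun i _ => (c.2 i (Pa (this.2 i)).2).1)).pow 2).sub continuous_const

lemma A1 (j : Fin 3) : D (fun s => (y p).1 j s - 1) (50 * ρ) :=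
  ⟨(yG p j).1.1.sub_const 1, fun s hs => by
    beta_reduce
    rw [(yF p j hs).1, add_sub_cancel_left]
    exact ((MG p (yG p) j).1.2 s hs).trans (le_of_eq (by ring))⟩

lemma B1 {s : ℂ} (hs : ‖s‖ ≤ 2 * ρ) : ‖(y p).2 2 s - (1 / 2 + β p)‖ ≤ 210 * ρ := by
  have b : s ∈ ball (0:ℂ) (1 / 2) := mem_ball_zero_iff.2 (hs.trans_lt (by norm_num [ρ]))
  have t : ∀ j, j ≠ 2 → ‖P j ((y p).1 j) (a 2 + s) - (a 2 - a j)⁻¹‖ ≤ 104 * ρ := fun j hj => by
    have h := (pt 2 b).2 j hj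
    have n1 : a 2 + s - a j ≠ 0 := norm_pos_iff.1 (by linarith)
    have n2 : a 2 - a j ≠ 0 := norm_pos_iff.1 (by linarith [a2 hj.symm])
    rw [show P j ((y p).1 j) (a 2 + s) - (a 2 - a j)⁻¹ = P j (fun s => (y p).1 j s - 1) (a 2 + s)
      + -s * (a 2 + s - a j)⁻¹ * (a 2 - a j)⁻¹ by unfold P; field_simp; ring]
    refine (norm_add_le_of_le (Pd (A1 p j) h4 h).2 (nm (c := 2 * ρ * 2) (d := 1) (nm
      ((norm_neg s).trans_le hs) ?_) ?_)).trans (le_of_eq (by ring)) <;> rw [norm_inv]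
    · exact inv_le_of_inv_le₀ two_pos (by linarith)
    · exact inv_le_one_of_one_le₀ (a2 hj.symm)
  have e1 : (y p).2 2 s - (1 / 2 + β p) = s0 p (y p) (a 2 + s) + ∑ j ∈ Finset.univ.erase 2,
      μ p j * (P j ((y p).1 j) (a 2 + s) - (a 2 - a j)⁻¹) := by
    rw [(yF p 2 b).2]
    simp only [M, sj, Finset.sum_erase_eq_sub (Finset.mem_univ _), Fin.sum_univ_three]
    simp [μ, a]; ring
  rw [e1]
  exact (norm_add_le_of_le (od p (yG p) (pt 2 b).1).2.2 (n2 2 fun j hj =>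
    nm (nμ p j).1 (t j hj))).trans (le_of_eq (by ring))

lemma pE : ‖per p 2 - 2 * e * (1 / 2 + β p)‖ ≤ ρ ^ 2 / 10 := by
  have r := ρ0
  have q1 : 0 < 2 * (ρ / 4) := by linarith
  have sb : closedBall (0:ℂ) (2 * (ρ / 4)) ⊆ ball 0 (1 / 2) :=
    closedBall_subset_ball (by norm_num [ρ])
  have dA : DifferentiableOn ℂ (fun s => (y p).1 2 s ^ 2 - 1) (ball 0 (1 / 2)) :=
    ((yG p 2).1.1.pow 2).sub_const 1
  have cA := dA.continuousOn.mono (sphere_subset_closedBall.trans sb)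
  have Z : (∮ z in C(0, 2 * (ρ / 4)), ((y p).1 2 z ^ 2 - 1)) = 0 :=
    circleIntegral_eq_zero_of_differentiable_on_off_countable q0 countable_empty
      (dA.continuousOn.mono sb) fun z hz =>
      dA.differentiableAt (isOpen_ball.mem_nhds (sb (ball_subset_closedBall hz.1)))
  have z0 : ∀ z ∈ sphere (0:ℂ) (2 * (ρ / 4)), z ≠ 0 := fun z hz => ne_of_mem_sphere hz q1.ne'
  have ci : ContinuousOn (fun z : ℂ => (z - 0)⁻¹) (sphere 0 (2 * (ρ / 4))) := by
    simp only [sub_zero]; exact continuousOn_id.inv₀ z0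
  have cR : ContinuousOn (fun z => R p (a 2 + z) ^ 2 - 1) (sphere 0 (2 * (ρ / 4))) := fun z hz =>
    (((ContinuousAt.comp (f := fun z => a 2 + z) (Rd p (sp 2 hz).1 (sp 2 hz).2).1.continuousAt
      (by fun_prop)).pow 2).sub continuousAt_const).continuousWithinAt
  set c : ℂ := 1 / 2 + β p
  have E1 := lin2 q0 (F := fun z => ((y p).1 2 z ^ 2 - 1) + 2 * e * c * (z - 0)⁻¹) _ _ 1 (2 * e * c)
    cA ci fun z _ => by ring
  rw [Z, circleIntegral.integral_sub_center_inv _ q1.ne'] at E1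
  have E2 := lin2 q0 (F := fun z => R p (a 2 + z) ^ 2 - 1 -
    (((y p).1 2 z ^ 2 - 1) + 2 * e * c * (z - 0)⁻¹)) _
    (fun z => ((y p).1 2 z ^ 2 - 1) + 2 * e * c * (z - 0)⁻¹) 1 (-1) cR
    (cA.add (continuousOn_const.mul ci)) fun z _ => by ring
  have E3 : per p 2 - 2 * e * c = (2 * π * I : ℂ)⁻¹ • ∮ z in C(0, 2 * (ρ / 4)),
      (R p (a 2 + z) ^ 2 - 1 - (((y p).1 2 z ^ 2 - 1) + 2 * e * c * (z - 0)⁻¹)) := by
    rw [E2, per, E1]
    have := two_pi_I_ne_zero
    simp only [smul_eq_mul]; field_simp; ring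
  rw [E3]
  refine (circleIntegral.norm_two_pi_i_inv_smul_integral_le_of_norm_le_const q0
    (C := 2 * (2 * ρ) * (50 * ρ * 32 + 210 * ρ) + (2 * ρ * 32) * (2 * ρ * 32)) fun z hz => ?_).trans
    (by norm_num [ρ])
  have b := sb (sphere_subset_closedBall hz)
  have k : ‖e * z⁻¹‖ ≤ 2 * ρ := by
    rw [norm_mul, norm_inv, ne', mem_sphere_zero_iff_norm.1 hz]; norm_num [ρ]
  have m : ‖(y p).2 2 (e * z⁻¹)‖ ≤ 32 := ((yG p 2).2.2 _
    (mem_ball_zero_iff.2 (k.trans_lt (by norm_num [ρ])))).trans (by norm_num)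
  rw [(Ra p 2 b).1, show (μ p 2 : ℂ) = 1 by simp [μ], show ∀ A B : ℂ,
    (A + e * 1⁻¹ * (z⁻¹ * B)) ^ 2 - 1 - (A ^ 2 - 1 + 2 * e * c * (z - 0)⁻¹) =
    2 * (e * z⁻¹) * ((A - 1) * B + (B - c)) + (e * z⁻¹ * B) * (e * z⁻¹ * B) from
    fun A B => by rw [sub_zero]; ring]
  exact norm_add_le_of_le (nm (nm Complex.norm_two.le k) (norm_add_le_of_le
    (nm ((A1 p 2).2 z b) m) (B1 p k))) (nm (nm k m) (nm k m))

lemma ex : ∃ p, (∀ j, per p j = 0) ∧ ∑ j, (μ p j : ℂ) * (y p).1 j 0 = γ p := by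
  have s1 : 3 / 4 < Real.sin 1 := by linarith [Real.sin_gt_sub_cube one_pos]
  have r := pow_pos ρ0 2
  have f : ∀ p, |(per p 2).re - ρ ^ 2 / 2 * Real.sin p.1| ≤ ρ ^ 2 / 10 := fun p => by
    refine le_trans (le_of_eq ?_) ((abs_re_le_norm _).trans (pE p))
    congr 1; simp [e, β, ← ofReal_pow, sin_ofReal_re]; ring
  have g : ∀ p, |(γ p - ∑ j, (μ p j : ℂ) * (y p).1 j 0).re -
      (Real.sin p.2 / 2 - Real.sin p.1 / 4)| ≤ 1 / 10 := fun p => by
    refine le_trans (le_of_eq ?_) ((abs_re_le_norm _).trans ((n3 fun j => nm (nμ p j).1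
      ((A1 p j).2 0 b0)).trans (by norm_num [ρ])))
    rw [← abs_neg]; congr 1; simp [Fin.sum_univ_three, μ, β, γ, sin_ofReal_re]; ring
  obtain ⟨p, -, h1, h2⟩ := MP_1501ba_gt.pm (fun p => (per p 2).re)
    (fun p => (γ p - ∑ j, (μ p j : ℂ) * (y p).1 j 0).re) (continuous_re.comp (pT 2))
    (continuous_re.comp (γc.sub (continuous_finsetSum _ fun j _ => (μc j).mul (yT j 0 b0).1)))
    (fun s => by
      have a := abs_le.1 (f (-1, s))
      have b := abs_le.1 (f (1, s))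
      simp only [Real.sin_neg] at a b
      constructor <;> nlinarith [a.2, b.1])
    (fun s => by
      have a := abs_le.1 (g (s, -1))
      have b := abs_le.1 (g (s, 1))
      simp only [Real.sin_neg] at a b
      constructor <;> linarith [a.2, b.1, Real.neg_one_le_sin s, Real.sin_le_one s])
  have k : per p 2 = 0 := Complex.ext h1 (conj_eq_iff_im.1 (pc p 2))
  refine ⟨p, fun j => ?_, (sub_eq_zero.1 (Complex.ext h2 (conj_eq_iff_im.1 ?_))).symm⟩
  · fin_cases j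
    · exact (pr p 2).trans (by rw [k, neg_zero])
    · exact self_eq_neg.1 (pr p 1)
    · exact k
  · simp [(yC p _ _).1]

end Pool.Agent.H.MP_090684_an
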