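import Pool.Agent.H.MP_090684_an.C

set_option autoImplicit false
open Complex Filter Topology Set Metric
open scoped Real ComplexConjugate

namespace Pool.Agent.H.MP_090684_an

def K : Set ℂ := {w | ‖w‖ ≤ ρ⁻¹ ∧ ∀ j, ρ ≤ ‖w - a j‖}

noncomputable def c : Fin 4 → ℂ := Fin.cons 0 a
noncomputable def r : Fin 4 → ℝ := Fin.cons ρ⁻¹ fun _ => ρ

lemma r0' (j : Fin 4) : 0 < r j := by
  refine Fin.cases (inv_pos.2 ρ0) (fun _ => ρ0) j

lemma main : ∃ (φ R S : ℂ → ℂ) (m : Fin 4 → ℂ), m 0 ≠ 0 ∧ InjOn φ K ∧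
    (∀ w ∈ K, AnalyticAt ℂ φ w ∧ HasDerivAt φ (R w ^ 2) w ∧ R w ≠ 0 ∧
      DifferentiableAt ℂ R w ∧ DifferentiableAt ℂ S w) ∧
    ∀ j (s : ℂ), ‖s‖ = r j → S (c j + s) * s = m j * conj (R (c j + s)) := by
  obtain ⟨p, h1, h2⟩ := ex
  have := ρ0
  obtain ⟨φ, f1, f2⟩ := dec (ρ / 4) (2 / ρ) (by linarith) (by norm_num [ρ]) (by norm_num [ρ])
    (fun w => R p w ^ 2 - 1) fun w hw =>
    ((Rd p hw.1.le fun j => (hw.2 j).le).1.pow 2).sub_const 1
  have f3 : ∀ w ∈ V (2 * (ρ / 4)) (2 / ρ), HasDerivAt (fun w => w + φ w) (R p w ^ 2) w :=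
    fun w hw => ((hasDerivAt_id w).add (f1 w hw)).congr_deriv (by
      simp only [per] at h1; simp only [h1]; simp)
  have KV : K ⊆ V (2 * (ρ / 4)) (2 / ρ) := fun w hw =>
    ⟨hw.1.trans_lt (by norm_num [ρ]), fun j => by linarith [hw.2 j]⟩
  refine ⟨fun w => w + φ w, R p, S p, Fin.cons (γ p) fun j => μ p j, γ0 p, fun w hw v hv h => ?_,
    fun w hw => ?_, fun j s => Fin.cases (fun hs => ?_) (fun j hs => bd1 p j hs) j⟩
  · have e1 : ρ⁻¹ = 2 / ρ / 2 := by ring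
    have e2 : 4 * (ρ / 4) = ρ := by ring
    have := f2 (1 / 200) (fun w hw => by
      have b := (Rd p hw.1.le fun j => (hw.2 j).le).2.2
      rw [show ∀ x : ℂ, x ^ 2 - 1 = (x - 1) * ((x - 1) + 2) from fun x => by ring]
      exact (nm b (norm_add_le_of_le b Complex.norm_two.le)).trans (by norm_num)) w v
      (e1 ▸ hw.1) (e1 ▸ hv.1) (e2.symm ▸ hw.2) (e2.symm ▸ hv.2)
    rw [show φ w - φ v = -(w - v) by linear_combination h, norm_neg] at this
    exact sub_eq_zero.1 (norm_le_zero_iff.1 (by linarith))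
  · have b := Rd p (KV hw).1.le fun j => by linarith [hw.2 j]
    refine ⟨DifferentiableOn.analyticAt (fun v hv => (f3 v hv).differentiableAt.differentiableWithinAt)
      ((Vo _ _).mem_nhds (KV hw)), f3 w (KV hw), fun h => ?_, b.1, b.2.1⟩
    have := b.2.2
    rw [h] at this; norm_num at this
  · simpa [c] using bd2 p h2 hs

lemma Kc : IsCompact K := by
  refine (isCompact_closedBall (0:ℂ) ρ⁻¹).of_isClosed_subset ?_ fun w hw =>
    mem_closedBall_zero_iff.2 hw.1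
  have : IsClosed {w : ℂ | ∀ j, ρ ≤ ‖w - a j‖} := by
    rw [Set.ofPred_forall]
    exact isClosed_iInter fun j => isClosed_le continuous_const (by fun_prop)
  exact (isClosed_le continuous_norm continuous_const).inter this

lemma VK : V ρ ρ⁻¹ ⊆ K := fun _ hw => ⟨hw.1.le, fun j => (hw.2 j).le⟩

lemma cl1 {O : Set ℂ} (hO : IsOpen O) {x z : ℂ} {q : ℝ} (hq : 0 < q) (h : z ∈ O)
    (hz : z ∈ sphere x q) : z ∈ closure (O ∩ ball x q) ∧ z ∈ closure (O ∩ (closedBall x q)ᶜ) :=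
  ⟨hO.inter_closure ⟨h, by rw [closure_ball _ hq.ne']; exact sphere_subset_closedBall hz⟩,
    hO.inter_closure ⟨h, by
      rw [closure_compl, interior_closedBall _ hq.ne']
      exact fun b => (mem_ball.1 b).ne hz⟩⟩

lemma far1 {z : ℂ} (h : ‖z‖ = ρ⁻¹) (j : Fin 3) : ρ < ‖z - a j‖ := by
  have := norm_sub_norm_le z (a j)
  rw [h] at this; norm_num [ρ] at this ⊢; linarith [a1 j]

lemma far2 {z : ℂ} {i : Fin 3} (h : ‖z - a i‖ = ρ) :
    ‖z‖ < ρ⁻¹ ∧ ∀ j, i ≠ j → ρ < ‖z - a j‖ := by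
  have := norm_sub_norm_le z (a i)
  refine ⟨by rw [h] at this; norm_num [ρ] at this ⊢; linarith [a1 i], fun j hj => ?_⟩
  have := a3 hj (z - a i)
  rw [h, add_sub_cancel] at this; norm_num [ρ] at this ⊢; linarith

lemma sK (j : Fin 4) {z : ℂ} (hz : z ∈ sphere (c j) (r j)) :
    z ∈ K ∧ z ∉ V ρ ρ⁻¹ ∧ z ∈ closure (V ρ ρ⁻¹) ∧ ∀ i, z ∈ sphere (c i) (r i) → i = j := by
  induction j using Fin.cases with
  | zero =>
    have h : ‖z‖ = ρ⁻¹ := mem_sphere_zero_iff_norm.1 hz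
    refine ⟨⟨h.le, fun j => (far1 h j).le⟩, fun b => b.1.ne h, closure_mono (fun w hw =>
      And.intro (mem_ball_zero_iff.1 hw.2) hw.1.2) (cl1 (Vo ρ (ρ⁻¹ + 1)) (r0' 0)
      ⟨by linarith, far1 h⟩ hz).1, fun i => Fin.cases (fun _ => rfl) (fun i b => ?_) i⟩
    exact absurd (mem_sphere_iff_norm.1 b) (far1 h i).ne'
  | succ j =>
    have h : ‖z - a j‖ = ρ := mem_sphere_iff_norm.1 hz
    have o : IsOpen {w : ℂ | ∀ i, j ≠ i → ρ < ‖w - a i‖} := by
      simp only [Set.ofPred_forall]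
      exact isOpen_iInter_of_finite fun i => isOpen_iInter_of_finite fun _ =>
        isOpen_lt continuous_const (by fun_prop)
    refine ⟨⟨(far2 h).1.le, fun i => ?_⟩, fun b => (b.2 j).ne' h, closure_mono (fun w hw =>
      And.intro hw.1.1 fun i => ?_) (cl1 ((isOpen_lt continuous_norm continuous_const).inter o) ρ0
      (far2 h) hz).2, fun i => Fin.cases (fun b => ?_) (fun i b => ?_) i⟩
    · by_cases b : j = i
      · exact b ▸ h.ge
      · exact ((far2 h).2 i b).le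
    · by_cases b : j = i
      · exact b ▸ not_le.1 fun k => hw.2 (mem_closedBall_iff_norm.2 k)
      · exact hw.1.2 i b
    · exact absurd (mem_sphere_zero_iff_norm.1 b) (far2 h).1.ne
    · by_contra n
      exact ((far2 h).2 i fun k => n (k ▸ rfl)).ne' (mem_sphere_iff_norm.1 b)

lemma Ks {z : ℂ} (h : z ∈ K) (n : z ∉ V ρ ρ⁻¹) : ∃ j, z ∈ sphere (c j) (r j) := by
  by_contra k
  push Not at k
  exact n ⟨h.1.lt_of_ne fun b => k 0 (mem_sphere_zero_iff_norm.2 b),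
    fun j => (h.2 j).lt_of_ne' fun b => k j.succ (mem_sphere_iff_norm.2 b)⟩

lemma Vc : IsPreconnected (V ρ ρ⁻¹) := by
  have ar : ∀ j, |(a j).re| ≤ 1 ∧ (a j).im = 0 := fun j => by fin_cases j <;> simp [a]
  have B : ∀ {T : Set ℂ}, Convex ℝ T → IsPreconnected (T ∩ ball 0 ρ⁻¹) := fun h =>
    (h.inter (convex_ball _ _)).isPreconnected
  have m : ∀ w : ℂ, ‖w‖ ≤ 5 → w ∈ ball (0:ℂ) ρ⁻¹ := fun w h =>
    mem_ball_zero_iff.2 (h.trans_lt (by norm_num [ρ]))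
  have n : ∀ x z : ℝ, |x| ≤ 2 → |z| ≤ 3 → (⟨x, z⟩ : ℂ) ∈ ball (0:ℂ) ρ⁻¹ := fun x z h k =>
    m _ ((norm_le_abs_re_add_abs_im _).trans (by linarith))
  have q : ρ < 1 / 2 := by norm_num [ρ]
  have := ρ0
  have C := (((B (convex_halfSpace_im_gt ρ)).union (⟨2, 1⟩ : ℂ)
    (And.intro (show ρ < 1 by linarith) (n _ _ (by simp) (by simp)))
    (And.intro (show (3:ℝ) / 2 < 2 by norm_num) (n _ _ (by simp) (by simp)))
    (B (convex_halfSpace_re_gt (3 / 2)))).union (⟨2, -1⟩ : ℂ)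
    (Or.inr (And.intro (show (3:ℝ) / 2 < 2 by norm_num) (n _ _ (by simp) (by simp))))
    (And.intro (show -1 < -ρ by linarith) (n _ _ (by simp) (by simp)))
    (B (convex_halfSpace_im_lt (-ρ)))).union (⟨-2, 1⟩ : ℂ)
    (Or.inl (Or.inl (And.intro (show ρ < 1 by linarith) (n _ _ (by simp) (by simp)))))
    (And.intro (show (-2:ℝ) < -(3 / 2) by norm_num) (n _ _ (by simp) (by simp)))
    (B (convex_halfSpace_re_lt (-(3 / 2))))
  set T : Set ℂ := {z : ℂ | ρ < z.im} ∩ ball 0 ρ⁻¹ ∪ {z : ℂ | 3 / 2 < z.re} ∩ ball 0 ρ⁻¹ ∪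
    {z : ℂ | z.im < -ρ} ∩ ball 0 ρ⁻¹ ∪ {z : ℂ | z.re < -(3 / 2)} ∩ ball 0 ρ⁻¹ with hT
  have TV : T ⊆ V ρ ρ⁻¹ := by
    have i : ∀ w : ℂ, ρ < |w.im| → ∀ j, ρ < ‖w - a j‖ := fun w h j =>
      lt_of_lt_of_le (by rwa [sub_im, (ar j).2, sub_zero]) (abs_im_le_norm _)
    have k : ∀ w : ℂ, 3 / 2 < |w.re| → ∀ j, ρ < ‖w - a j‖ := fun w h j =>
      lt_of_lt_of_le (by rw [sub_re]; linarith [abs_sub_abs_le_abs_sub w.re (a j).re, (ar j).1])
        (abs_re_le_norm _)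
    rintro w (((h | h) | h) | h) <;> refine ⟨mem_ball_zero_iff.1 h.2, ?_⟩
    · exact i w (lt_abs.2 (Or.inl h.1))
    · exact k w (lt_abs.2 (Or.inl h.1))
    · exact i w (lt_abs.2 (Or.inr (lt_neg.1 h.1)))
    · exact k w (lt_abs.2 (Or.inr (lt_neg.1 h.1)))
  have x0 : (⟨2, 1⟩ : ℂ) ∈ T :=
    Or.inl (Or.inl (Or.inl (And.intro (show ρ < 1 by linarith) (n _ _ (by simp) (by simp)))))
  refine isPreconnected_of_forall (⟨2, 1⟩ : ℂ) fun w hw => ?_
  by_cases b : w ∈ T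
  · exact ⟨T, TV, x0, b, C⟩
  have w1 := mem_ball_zero_iff.2 hw.1
  simp only [hT, mem_union, mem_inter_iff, w1, and_true, mem_ofPred_eq, not_or, not_lt] at b
  have b1 : |w.re| ≤ 2 := abs_le.2 ⟨by linarith [b.2], by linarith [b.1.1.2]⟩
  have G : ∀ σ : ℝ, |σ| = 1 → 0 ≤ σ * w.im → (⟨w.re, w.im + σ * 2⟩ : ℂ) ∈ T →
      ∃ t ⊆ V ρ ρ⁻¹, (⟨2, 1⟩ : ℂ) ∈ t ∧ w ∈ t ∧ IsPreconnected t := fun σ s1 s2 s3 => by
    refine ⟨T ∪ (fun t : ℝ => (⟨w.re, w.im + σ * t⟩ : ℂ)) '' Icc 0 2, union_subset TV ?_,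
      Or.inl x0, Or.inr ⟨0, by simp, by simp⟩, C.union _ s3 ⟨2, by simp, rfl⟩
      (isPreconnected_Icc.image _ (Continuous.continuousOn ?_))⟩
    · rintro _ ⟨t, ht, rfl⟩
      refine ⟨mem_ball_zero_iff.1 (n _ _ b1 ((abs_add_le _ _).trans ?_)), fun j =>
        (hw.2 j).trans_le ?_⟩
      · rw [abs_mul, s1, abs_of_nonneg ht.1]
        linarith [ht.2, abs_le.2 ⟨b.1.2, b.1.1.1⟩]
      · rw [← sq_le_sq₀ (norm_nonneg _) (norm_nonneg _), Complex.sq_norm, Complex.sq_norm,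
          normSq_apply, normSq_apply]
        simp only [sub_re, sub_im, (ar j).2]
        nlinarith [mul_nonneg s2 ht.1, sq_nonneg (σ * t)]
    · simp only [mk_eq_add_mul_I]; fun_prop
  rcases le_total 0 w.im with h | h
  · exact G 1 abs_one (by linarith) (Or.inl (Or.inl (Or.inl ⟨show ρ < w.im + 1 * 2 by linarith,
      n _ _ b1 (abs_le.2 ⟨by linarith, by linarith [b.1.1.1]⟩)⟩)))
  · exact G (-1) (by simp) (by linarith) (Or.inl (Or.inr ⟨show w.im + -1 * 2 < -ρ by linarith,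
      n _ _ b1 (abs_le.2 ⟨by linarith [b.1.2], by linarith⟩)⟩))

lemma nann (C : Fin 4 → Set ℂ) (h1 : ∀ j, IsClosed (C j)) (h2 : ∀ j, (C j).Nonempty)
    (h3 : ∀ i j, i ≠ j → Disjoint (C i) (C j)) (x : ℂ) (p q : ℝ) (hp : 0 < p) (hq : p < q) :
    frontier {z : ℂ | p < ‖z - x‖ ∧ ‖z - x‖ < q} ≠ ⋃ j, C j := fun h => by
  have o1 : IsOpen {z : ℂ | p < ‖z - x‖} := isOpen_lt continuous_const (by fun_prop)
  have o2 : IsOpen {z : ℂ | ‖z - x‖ < q} := isOpen_lt (by fun_prop) continuous_const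
  rw [IsOpen.frontier_eq (show IsOpen {z : ℂ | p < ‖z - x‖ ∧ ‖z - x‖ < q} from o1.inter o2)] at h
  have s : ∀ t, t = p ∨ t = q → sphere x t ⊆ ⋃ j, C j := fun t ht z hz => by
    have n := mem_sphere_iff_norm.1 hz
    rw [← h]
    rcases ht with rfl | rfl
    · exact ⟨closure_mono (fun w hw => And.intro (not_le.1 fun k => hw.2
        (mem_closedBall_iff_norm.2 k)) hw.1) (cl1 o2 hp (n.trans_lt hq) hz).2, fun b => b.1.ne' n⟩
    · exact ⟨closure_mono (fun w hw => And.intro hw.1 (mem_ball_iff_norm.1 hw.2))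
        (cl1 o1 (hp.trans hq) (hq.trans_eq n.symm) hz).1, fun b => b.2.ne n⟩
  choose z hz using h2
  have k : ∀ j, ‖z j - x‖ = p ∨ ‖z j - x‖ = q := fun j => by
    have m : z j ∈ _ := h.ge (mem_iUnion.2 ⟨j, hz j⟩)
    have b := closure_minimal (t := {z : ℂ | p ≤ ‖z - x‖} ∩ {z : ℂ | ‖z - x‖ ≤ q})
      (fun w hw => And.intro hw.1.le hw.2.le) ((isClosed_le continuous_const (by fun_prop)).inter
      (isClosed_le (by fun_prop) continuous_const)) m.1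
    by_contra n
    push Not at n
    exact m.2 ⟨b.1.lt_of_ne' n.1, b.2.lt_of_ne n.2⟩
  have l : ∀ i j, i ≠ j → ‖z i - x‖ ≠ ‖z j - x‖ := fun i j n b => by
    have := (isPreconnected_iff_subset_of_fully_disjoint_closed isClosed_sphere).1
      (isPreconnected_sphere (by simp) x ‖z i - x‖) (C i) (⋃ t : {t // i ≠ t}, C t) (h1 i)
      (isClosed_iUnion_of_finite fun t => h1 t) (fun w hw => by
        obtain ⟨t, ht⟩ := mem_iUnion.1 (s _ (k i) hw)
        by_cases v : i = t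
        · exact Or.inl (v ▸ ht)
        · exact Or.inr (mem_iUnion.2 ⟨⟨t, v⟩, ht⟩))
      (disjoint_iUnion_right.2 fun t => h3 i t t.2)
    rcases this with v | v
    · exact disjoint_left.1 (h3 i j n) (v (mem_sphere_iff_norm.2 b.symm)) (hz j)
    · obtain ⟨t, ht⟩ := mem_iUnion.1 (v (mem_sphere_iff_norm.2 rfl))
      exact disjoint_left.1 (h3 i t t.2) (hz i) ht
  have l1 := l 0 1 (by decide)
  have l2 := l 0 2 (by decide)
  have l3 := l 1 2 (by decide)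
  rcases k 0 with b | b <;> rcases k 1 with d | d <;> rcases k 2 with f | f <;> simp_all

end Pool.Agent.H.MP_090684_an
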